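import Mathlib

/-! Edges outside a family `T` whose other completions lie in `T`. -/

set_option autoImplicit false
open Finset
open scoped Classical

namespace Pool.Agent.X59.SC

variable {n : ℕ} {H T : Finset (Finset (Fin n))}

/-- the vertices which form with any two vertices of `e` a triple of `T` -/
noncomputable def comp (T : Finset (Finset (Fin n))) (e : Finset (Fin n)) : Finset (Fin n) :=
  univ.filter fun v => v ∉ e ∧ ∀ x ∈ e, insert v (e.erase x) ∈ T

lemma comp_le (hF : ∀ S : Finset (Fin n), S.card = 4 → ∃ t ⊆ S, t.card = 3 ∧ t ∉ H)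
    {e : Finset (Fin n)} (he : e ∈ H) (h3 : e.card = 3) :
    (comp T e).card ≤ ((T \ H).filter fun f => (e ∩ f).card = 2).card := by
  have key : ∀ v ∈ comp T e, ∃ x ∈ e, insert v (e.erase x) ∉ H := by
    intro v hv
    unfold comp at hv
    rw [mem_filter] at hv
    obtain ⟨-, hv, -⟩ := hv
    have hS : (insert v e).card = 4 := by rw [card_insert_of_notMem hv, h3]
    obtain ⟨t, ht, h3', htH⟩ := hF _ hS
    have hcd : ((insert v e) \ t).card = 1 := by
      rw [card_sdiff_of_subset ht, hS, h3']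
    obtain ⟨u, hu⟩ := card_eq_one.1 hcd
    have hu1 : u ∈ (insert v e) \ t := by rw [hu]; simp
    have heq : t = (insert v e).erase u := by
      rw [← sdiff_singleton_eq_erase, ← hu, Finset.sdiff_sdiff_eq_self ht]
    rw [mem_sdiff, mem_insert] at hu1
    rcases hu1.1 with h | h
    · exfalso
      apply htH
      rw [heq, h, erase_insert hv]
      exact he
    · refine ⟨u, h, ?_⟩
      rw [heq, erase_insert_of_ne (by rintro rfl; exact hv h)] at htH
      exact htH
  have hne : ∀ v, ∃ x, v ∈ comp T e → x ∈ e ∧ insert v (e.erase x) ∉ H := by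
    intro v
    by_cases hv : v ∈ comp T e
    · obtain ⟨x, h1, h2⟩ := key v hv
      exact ⟨x, fun _ => ⟨h1, h2⟩⟩
    · exact ⟨v, fun h => absurd h hv⟩
  choose X hX using hne
  refine card_le_card_of_injOn (fun v => insert v (e.erase (X v))) ?_ ?_
  · intro v hv
    have hv' : v ∈ comp T e := hv
    have h1 := hX v hv'
    unfold comp at hv'
    rw [mem_filter] at hv'
    obtain ⟨-, hve, hvT⟩ := hv'
    show insert v (e.erase (X v)) ∈ (T \ H).filter fun f => (e ∩ f).card = 2
    rw [mem_filter, mem_sdiff]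
    refine ⟨⟨hvT _ h1.1, h1.2⟩, ?_⟩
    have : e ∩ insert v (e.erase (X v)) = e.erase (X v) := by
      ext w
      simp only [mem_inter, mem_insert, mem_erase]
      constructor
      · rintro ⟨a, b | b⟩
        · subst b; exact absurd a hve
        · exact b
      · intro h; exact ⟨h.2, Or.inr h⟩
    rw [this, card_erase_of_mem h1.1, h3]
  · intro v hv w hw h
    have hv' : v ∈ comp T e := hv
    have hw' : w ∈ comp T e := hw
    unfold comp at hv' hw'
    rw [mem_filter] at hv' hw'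
    have h' : insert v (e.erase (X v)) = insert w (e.erase (X w)) := h
    have h1 : v ∈ insert w (e.erase (X w)) := by rw [← h']; exact mem_insert_self _ _
    rw [mem_insert] at h1
    rcases h1 with h1 | h1
    · exact h1
    · exact absurd (mem_of_mem_erase h1) hv'.2.1

/-- the double count -/
lemma bound (hF : ∀ S : Finset (Fin n), S.card = 4 → ∃ t ⊆ S, t.card = 3 ∧ t ∉ H)
    (h3 : ∀ s ∈ H, s.card = 3) {κ : ℝ}
    (h0 : ∀ e ∈ H \ T, (comp T e).card ≠ 0)
    (hκ : ∀ f ∈ T \ H, ∑ e ∈ (H \ T).filter (fun e => (e ∩ f).card = 2),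
      1 / ((comp T e).card : ℝ) ≤ κ) :
    ((H \ T).card : ℝ) ≤ κ * ((T \ H).card : ℝ) := by
  have h1 : ((H \ T).card : ℝ) ≤ ∑ e ∈ H \ T, ∑ f ∈ T \ H,
      if (e ∩ f).card = 2 then 1 / ((comp T e).card : ℝ) else 0 := by
    rw [card_eq_sum_ones]
    push_cast
    refine sum_le_sum fun e he => ?_
    have he' := mem_sdiff.1 he
    have hc := comp_le (T := T) hF he'.1 (h3 e he'.1)
    have hp : (0 : ℝ) < (comp T e).card := by
      have := h0 e he
      exact_mod_cast Nat.pos_of_ne_zero this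
    rw [← sum_filter, sum_const, nsmul_eq_mul, mul_one_div, le_div_iff₀ hp, one_mul]
    exact_mod_cast hc
  refine h1.trans ?_
  rw [sum_comm]
  have h2 : ∀ f ∈ T \ H, ∑ e ∈ H \ T,
      (if (e ∩ f).card = 2 then 1 / ((comp T e).card : ℝ) else 0) ≤ κ := by
    intro f hf
    rw [← sum_filter]
    exact hκ f hf
  refine (sum_le_sum h2).trans ?_
  rw [sum_const, nsmul_eq_mul, mul_comm]

/-- the form with codegrees -/
lemma pairs (hT : ∀ s ∈ T, s.card = 3) {κ : ℝ} {d : ℕ} (hd : 0 < d)
    (h0 : ∀ e ∈ H \ T, d ≤ (comp T e).card)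
    (hκ : ∀ x y, x ≠ y → 3 * (((H \ T).filter fun e => x ∈ e ∧ y ∈ e).card : ℝ) ≤ κ * d)
    (f : Finset (Fin n)) (hf : f ∈ T \ H) :
    ∑ e ∈ (H \ T).filter (fun e => (e ∩ f).card = 2), 1 / ((comp T e).card : ℝ) ≤ κ := by
  have hd' : (0 : ℝ) < d := by exact_mod_cast hd
  obtain ⟨a, b, c, hab, hac, hbc, rfl⟩ := card_eq_three.1 (hT f (mem_sdiff.1 hf).1)
  have h1 : ∑ e ∈ (H \ T).filter (fun e => (e ∩ {a, b, c}).card = 2),
      1 / ((comp T e).card : ℝ) ≤
      ∑ e ∈ (H \ T).filter (fun e => (e ∩ {a, b, c}).card = 2), 1 / (d : ℝ) := by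
    refine sum_le_sum fun e he => ?_
    have := h0 e (mem_filter.1 he).1
    have h2 : (d : ℝ) ≤ (comp T e).card := by exact_mod_cast this
    exact one_div_le_one_div_of_le hd' h2
  refine h1.trans ?_
  rw [sum_const, nsmul_eq_mul, mul_one_div, div_le_iff₀ hd']
  have h2 : (H \ T).filter (fun e => (e ∩ {a, b, c}).card = 2) ⊆
      ((H \ T).filter fun e => a ∈ e ∧ b ∈ e) ∪ (((H \ T).filter fun e => a ∈ e ∧ c ∈ e) ∪
        ((H \ T).filter fun e => b ∈ e ∧ c ∈ e)) := by
    intro e he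
    rw [mem_filter] at he
    obtain ⟨he, hc⟩ := he
    obtain ⟨u, v, huv, huv'⟩ := card_eq_two.1 hc
    have hu : u ∈ e ∩ {a, b, c} := by rw [huv']; simp
    have hv : v ∈ e ∩ {a, b, c} := by rw [huv']; simp
    simp only [mem_inter, mem_insert, mem_singleton] at hu hv
    simp only [mem_union, mem_filter, he, true_and]
    obtain ⟨hu1, hu2⟩ := hu
    obtain ⟨hv1, hv2⟩ := hv
    rcases hu2 with rfl | rfl | rfl <;> rcases hv2 with rfl | rfl | rfl
    · exact absurd rfl huv
    · exact Or.inl ⟨hu1, hv1⟩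
    · exact Or.inr (Or.inl ⟨hu1, hv1⟩)
    · exact Or.inl ⟨hv1, hu1⟩
    · exact absurd rfl huv
    · exact Or.inr (Or.inr ⟨hu1, hv1⟩)
    · exact Or.inr (Or.inl ⟨hv1, hu1⟩)
    · exact Or.inr (Or.inr ⟨hv1, hu1⟩)
    · exact absurd rfl huv
  have h3 := (card_le_card h2).trans ((card_union_le _ _).trans
    (Nat.add_le_add_left (card_union_le _ _) _))
  have h4 : (((H \ T).filter (fun e => (e ∩ {a, b, c}).card = 2)).card : ℝ) ≤
      ((H \ T).filter fun e => a ∈ e ∧ b ∈ e).card + (((H \ T).filter fun e => a ∈ e ∧ c ∈ e).card +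
        ((H \ T).filter fun e => b ∈ e ∧ c ∈ e).card) := by exact_mod_cast h3
  have k1 := hκ a b hab
  have k2 := hκ a c hac
  have k3 := hκ b c hbc
  linarith

lemma card_eq (H T : Finset (Finset (Fin n))) :
    (H.card : ℝ) + ((T \ H).card : ℝ) = (T.card : ℝ) + (H \ T).card := by
  have h1 := card_sdiff_add_card_inter H T
  have h2 := card_sdiff_add_card_inter T H
  rw [inter_comm] at h2
  have h1' : (((H \ T).card : ℕ) : ℝ) + (H ∩ T).card = H.card := by exact_mod_cast h1
  have h2' : (((T \ H).card : ℕ) : ℝ) + (H ∩ T).card = T.card := by exact_mod_cast h2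
  linarith

end Pool.Agent.X59.SC
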