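import Mathlib

/-! The orientations of the constructions with levels. -/

set_option autoImplicit false
open Finset
open scoped Classical

namespace Pool.Agent.X59.SC

/-- arcs between the classes, by the sign -/
def arc (p q : Fin 3) (o : Bool) : Bool := (q == p + 1 && o) || (p == q + 1 && !o)

/-- a vertex joined to neither of the others, or sending arcs to both -/
def fB (p q r : Fin 3) (a b d : Bool) : Bool :=
  (!(arc p q a || arc q p a) && !(arc p r b || arc r p b)) ||
  (!(arc p q a || arc q p a) && !(arc q r d || arc r q d)) ||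
  (!(arc p r b || arc r p b) && !(arc q r d || arc r q d)) ||
  (arc p q a && arc p r b) || (arc q p a && arc q r d) || (arc r p b && arc r q d)

/-- the finite check for one choice -/
def good (p q r : Fin 3) (a b d k : Bool) (j : Fin 3) : Bool :=
  !fB p q j a k k && !fB p r j b k k && !fB q r j d k k &&
    !(p == j && a == k && b == k) && !(q == j && a == k && d == k) && !(r == j && b == k && d == k)

def allg (p q r : Fin 3) : Bool :=
  [true, false].all fun a => [true, false].all fun b => [true, false].all fun d =>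
    [true, false].all fun k => !fB p q r a b d || good p q r a b d k 0 || good p q r a b d k 1 ||
      good p q r a b d k 2

def alla : Bool := ([0, 1, 2] : List (Fin 3)).all fun p => ([0, 1, 2] : List (Fin 3)).all fun q =>
  ([0, 1, 2] : List (Fin 3)).all fun r => allg p q r

set_option maxRecDepth 100000 in
lemma alla_true : alla = true := by decide

lemma mem3 (p : Fin 3) : p ∈ ([0, 1, 2] : List (Fin 3)) := by
  revert p; decide
lemma mem2 (p : Bool) : p ∈ [true, false] := by
  revert p; decide

lemma fin_fact (p q r : Fin 3) (a b d k : Bool) (h : fB p q r a b d = true) :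
    ∃ j : Fin 3, good p q r a b d k j = true := by
  have h0 := alla_true
  unfold alla at h0
  rw [List.all_eq_true] at h0
  have h1 := h0 p (mem3 p)
  rw [List.all_eq_true] at h1
  have h2 := h1 q (mem3 q)
  rw [List.all_eq_true] at h2
  have h3 := h2 r (mem3 r)
  unfold allg at h3
  rw [List.all_eq_true] at h3
  have h4 := h3 a (mem2 a)
  rw [List.all_eq_true] at h4
  have h5 := h4 b (mem2 b)
  rw [List.all_eq_true] at h5
  have h6 := h5 d (mem2 d)
  rw [List.all_eq_true] at h6
  have h7 := h6 k (mem2 k)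
  rw [h] at h7
  simp only [Bool.not_true, Bool.false_or, Bool.or_eq_true] at h7
  rcases h7 with (h7 | h7) | h7
  · exact ⟨0, h7⟩
  · exact ⟨1, h7⟩
  · exact ⟨2, h7⟩

variable {n : ℕ}

/-- the arcs of the construction with levels -/
def kost (c : Fin n → Fin 3) (L : Fin n → ℕ) (s : ℕ → Bool) (x y : Fin n) : Prop :=
  (c y = c x + 1 ∧ s (max (L x) (L y)) = true) ∨ (c x = c y + 1 ∧ s (max (L x) (L y)) = false)

variable {c : Fin n → Fin 3} {L : Fin n → ℕ} {s : ℕ → Bool}

lemma kost_iff (x y : Fin n) : kost c L s x y ↔ arc (c x) (c y) (s (max (L x) (L y))) = true := by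
  unfold kost arc
  cases s (max (L x) (L y)) <;> simp

lemma kost_iff' (x y : Fin n) : kost c L s y x ↔ arc (c y) (c x) (s (max (L x) (L y))) = true := by
  rw [kost_iff, max_comm]

lemma arc_asymm : ∀ (p q : Fin 3) (o : Bool), arc p q o = true → ¬ arc q p o = true := by
  unfold arc; decide
lemma arc_same : ∀ (p q : Fin 3) (o : Bool), ¬ arc p q o = true → ¬ arc q p o = true → p = q := by
  unfold arc; decide
lemma arc_two : ∀ (p q : Fin 3) (o o' : Bool), arc p q o = true → arc q p o' = true → o ≠ o' := by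
  unfold arc; decide
lemma arc_sign : ∀ (p q : Fin 3) (o o' : Bool), arc p q o = true → arc p q o' = true →
    o = o' := by
  unfold arc; decide

lemma kost_oriented (x y : Fin n) (h : kost c L s x y) : ¬ kost c L s y x := by
  rw [kost_iff] at h
  rw [kost_iff']
  exact arc_asymm _ _ _ h

lemma kost_same {x y : Fin n} (h1 : ¬ kost c L s x y) (h2 : ¬ kost c L s y x) : c x = c y := by
  rw [kost_iff] at h1
  rw [kost_iff'] at h2
  exact arc_same _ _ _ h1 h2

lemma kost_C4 {x y z w : Fin n} (h1 : kost c L s x y) (h2 : kost c L s y z) (h3 : kost c L s z w)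
    (h4 : kost c L s w x) (h5 : ¬ kost c L s x z) (h6 : ¬ kost c L s z x)
    (h7 : ¬ kost c L s y w) (h8 : ¬ kost c L s w y) : False := by
  have e1 := kost_same h5 h6
  have e2 := kost_same h7 h8
  rw [kost_iff] at h1 h2 h3 h4
  rw [← e1] at h2 h3
  rw [← e2] at h3 h4
  have k1 := arc_sign _ _ _ _ h1 h3
  have k2 := arc_sign _ _ _ _ h2 h4
  apply arc_two _ _ _ _ h1 h2
  have hc : (L y ≤ L x ∧ L w ≤ L x) ∨ (L x ≤ L y ∧ L z ≤ L y) ∨ (L y ≤ L z ∧ L w ≤ L z) ∨
      (L z ≤ L w ∧ L x ≤ L w) := by omega
  rcases hc with ⟨a, b⟩ | ⟨a, b⟩ | ⟨a, b⟩ | ⟨a, b⟩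
  · rw [max_eq_right b] at k2
    rw [k2, max_eq_left a]
  · rw [max_eq_right a, max_eq_left b]
  · rw [max_eq_left b] at k1
    rw [k1, max_eq_right a]
  · rw [max_eq_right a] at k1
    rw [max_eq_left b] at k2
    rw [k1, k2]

/-- the type of a triple -/
lemma fdf_iff {x y z : Fin n} (hxy : x ≠ y) (hxz : x ≠ z) (hyz : y ≠ z) :
    (∃ u ∈ ({x, y, z} : Finset (Fin n)),
      (∀ v ∈ ({x, y, z} : Finset (Fin n)), v ≠ u → (¬ kost c L s u v ∧ ¬ kost c L s v u)) ∨
      (∀ v ∈ ({x, y, z} : Finset (Fin n)), v ≠ u → kost c L s u v)) ↔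
    fB (c x) (c y) (c z) (s (max (L x) (L y))) (s (max (L x) (L z))) (s (max (L y) (L z))) =
      true := by
  have hyx := hxy.symm
  have hzx := hxz.symm
  have hzy := hyz.symm
  have a1 := kost_iff (c := c) (L := L) (s := s) x y
  have a2 := kost_iff' (c := c) (L := L) (s := s) x y
  have a3 := kost_iff (c := c) (L := L) (s := s) x z
  have a4 := kost_iff' (c := c) (L := L) (s := s) x z
  have a5 := kost_iff (c := c) (L := L) (s := s) y z
  have a6 := kost_iff' (c := c) (L := L) (s := s) y z
  unfold fB
  simp only [mem_insert, mem_singleton, exists_eq_or_imp, exists_eq_left, forall_eq_or_imp,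
    forall_eq, ne_eq, not_true, false_imp_iff, true_and, and_true, hxy, hxz, hyz, hyx, hzx, hzy,
    not_false_eq_true, true_imp_iff, a1, a2, a3, a4, a5, a6]
  generalize arc (c x) (c y) _ = b1
  generalize arc (c y) (c x) _ = b2
  generalize arc (c x) (c z) _ = b3
  generalize arc (c z) (c x) _ = b4
  generalize arc (c y) (c z) _ = b5
  generalize arc (c z) (c y) _ = b6
  cases b1 <;> cases b2 <;> cases b3 <;> cases b4 <;> cases b5 <;> cases b6 <;> simp

end Pool.Agent.X59.SC
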